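import Pool.Agent.Helper26.LU.Goals

/-!
# Project LU: proof of T5 (approximate inverse of the first vertex map)
-/

namespace Pool.Agent.Helper40.LU

open Matrix Real Pool.Agent.Helper26.LU

attribute [local instance] Matrix.normedAddCommGroup Matrix.normedSpace

theorem mul_norm_le (A B : M3) : ‖A * B‖ ≤ 3 * ‖A‖ * ‖B‖ := by
  rw [Matrix.norm_le_iff (by positivity)]
  intro i j
  rw [Matrix.mul_apply]
  refine (norm_sum_le _ _).trans ?_
  calc ∑ k, ‖A i k * B k j‖ ≤ ∑ _k : Fin 3, ‖A‖ * ‖B‖ := by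
        apply Finset.sum_le_sum
        intro k _
        rw [norm_mul]
        exact mul_le_mul (Matrix.norm_entry_le_entrywise_sup_norm A)
          (Matrix.norm_entry_le_entrywise_sup_norm B) (norm_nonneg _) (norm_nonneg _)
    _ = 3 * ‖A‖ * ‖B‖ := by simp; ring

theorem mulVec_norm_le (A : M3) (x : V) : ‖A *ᵥ x‖ ≤ 3 * ‖A‖ * ‖x‖ := by
  rw [pi_norm_le_iff_of_nonneg (by positivity)]
  intro i
  rw [Matrix.mulVec, dotProduct]
  refine (norm_sum_le _ _).trans ?_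
  calc ∑ k, ‖A i k * x k‖ ≤ ∑ _k : Fin 3, ‖A‖ * ‖x‖ := by
        apply Finset.sum_le_sum
        intro k _
        rw [norm_mul]
        exact mul_le_mul (Matrix.norm_entry_le_entrywise_sup_norm A)
          (norm_le_pi_norm x k) (norm_nonneg _) (norm_nonneg _)
    _ = 3 * ‖A‖ * ‖x‖ := by simp; ring

theorem dot_norm_le (x y : V) : |x ⬝ᵥ y| ≤ 3 * ‖x‖ * ‖y‖ := by
  rw [dotProduct]
  refine (Finset.abs_sum_le_sum_abs _ _).trans ?_
  calc ∑ k, |x k * y k| ≤ ∑ _k : Fin 3, ‖x‖ * ‖y‖ := by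
        apply Finset.sum_le_sum
        intro k _
        rw [abs_mul]
        exact mul_le_mul (coord_le_norm x k) (coord_le_norm y k) (abs_nonneg _) (norm_nonneg _)
    _ = 3 * ‖x‖ * ‖y‖ := by simp; ring

theorem cross_norm_le (x y : V) : ‖crossProduct x y‖ ≤ 2 * ‖x‖ * ‖y‖ := by
  rw [pi_norm_le_iff_of_nonneg (by positivity)]
  have h : ∀ i j : Fin 3, |x i * y j| ≤ ‖x‖ * ‖y‖ := fun i j => by
    rw [abs_mul]
    exact mul_le_mul (coord_le_norm x i) (coord_le_norm y j) (abs_nonneg _) (norm_nonneg _)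
  have h2 : ∀ i j k l : Fin 3, |x i * y j - x k * y l| ≤ 2 * ‖x‖ * ‖y‖ := fun i j k l => by
    have := abs_sub (x i * y j) (x k * y l)
    linarith [h i j, h k l]
  intro i
  rw [cross_apply, Real.norm_eq_abs]
  fin_cases i
  · exact h2 _ _ _ _
  · exact h2 _ _ _ _
  · exact h2 _ _ _ _

theorem crossM_norm_le (w : V) : ‖crossM w‖ ≤ ‖w‖ := by
  rw [Matrix.norm_le_iff (norm_nonneg _)]
  intro i j
  have h := fun k => coord_le_norm w k
  have h0 := norm_nonneg w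
  fin_cases i <;> fin_cases j <;> simp [crossM, h, h0]

theorem crossM_sub (w w' : V) : crossM (w - w') = crossM w - crossM w' := by
  ext i j
  fin_cases i <;> fin_cases j <;> simp [crossM] <;> ring

theorem SO3_norm_le {R : M3} (h : R ∈ SO3) : ‖R‖ ≤ 1 := by
  rw [Matrix.norm_le_iff zero_le_one]
  intro i j
  exact SO3_entry_le h i j

/-- The lower bound for `1 + p · q`. -/
theorem one_le_dot {p q : V} (hp : p ∈ sph) (h : ‖q - p‖ ≤ 1 / 6) :
    1 ≤ 1 + p ⬝ᵥ q := by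
  have h1 : p ⬝ᵥ p = 1 := hp
  have h2 : p ⬝ᵥ q = 1 + p ⬝ᵥ (q - p) := by rw [dotProduct_sub, h1]; ring
  have h3 := dot_norm_le p (q - p)
  have h4 := sph_norm_le hp
  have h5 : 3 * ‖p‖ * ‖q - p‖ ≤ 3 * 1 * (1 / 6) := by
    gcongr
  rw [abs_le] at h3
  rw [h2]
  linarith [h3.1]

theorem cross_eq (p q : V) : crossProduct p q = crossProduct p (q - p) := by
  rw [map_sub, cross_self, sub_zero]

/-- `Bm p q - 1`. -/
theorem Bm_near {p q : V} (hp : p ∈ sph) (h : ‖q - p‖ ≤ 1 / 6) :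
    ‖Bm p q - 1‖ ≤ 4 * ‖q - p‖ := by
  set X := crossM (crossProduct p q) with hX
  set s := (1 + p ⬝ᵥ q)⁻¹ with hs
  have h1 := one_le_dot hp h
  have hs0 : 0 < s := by rw [hs]; positivity
  have hs1 : s ≤ 1 := inv_le_one_of_one_le₀ h1
  have hd := norm_nonneg (q - p)
  have hXn : ‖X‖ ≤ 2 * ‖q - p‖ := by
    rw [hX]
    refine (crossM_norm_le _).trans ?_
    rw [cross_eq]
    refine (cross_norm_le _ _).trans ?_
    have := sph_norm_le hp
    nlinarith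
  have e1 : Bm p q - 1 = X + s • (X * X) := by
    rw [Bm]
    simp only [hX, hs]
    abel
  rw [e1]
  refine (norm_add_le _ _).trans ?_
  rw [norm_smul, Real.norm_eq_abs, abs_of_pos hs0]
  have h2 := mul_norm_le X X
  have h3 := norm_nonneg X
  have h4 : s * ‖X * X‖ ≤ 1 * (3 * ‖X‖ * ‖X‖) :=
    mul_le_mul hs1 h2 (norm_nonneg _) zero_le_one
  nlinarith

/-- The Lipschitz estimate for `Bm`. -/
theorem Bm_lip {p q p' q' : V} (hp : p ∈ sph) (hp' : p' ∈ sph) (h : ‖q - p‖ ≤ 1 / 6)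
    (h' : ‖q' - p'‖ ≤ 1 / 6) :
    ‖Bm p q - Bm p' q'‖ ≤ 9 * (‖p - p'‖ * ‖q - p‖ + ‖(q - p) - (q' - p')‖) := by
  set X := crossM (crossProduct p q) with hX
  set s := (1 + p ⬝ᵥ q)⁻¹ with hs
  set X' := crossM (crossProduct p' q') with hX'
  set s' := (1 + p' ⬝ᵥ q')⁻¹ with hs'
  have h1 := one_le_dot hp h
  have h1' := one_le_dot hp' h'
  have hs0 : 0 < s := by rw [hs]; positivity
  have hs1 : s ≤ 1 := inv_le_one_of_one_le₀ h1
  have hs0' : 0 < s' := by rw [hs']; positivity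
  have hs1' : s' ≤ 1 := inv_le_one_of_one_le₀ h1'
  have hpn := sph_norm_le hp
  have hpn' := sph_norm_le hp'
  set W := ‖p - p'‖ * ‖q - p‖ + ‖(q - p) - (q' - p')‖ with hW
  have hXn : ‖X‖ ≤ 1 / 3 := by
    rw [hX]
    refine (crossM_norm_le _).trans ?_
    rw [cross_eq]
    refine (cross_norm_le _ _).trans ?_
    have := norm_nonneg (q - p)
    nlinarith
  have hXn' : ‖X'‖ ≤ 1 / 3 := by
    rw [hX']
    refine (crossM_norm_le _).trans ?_
    rw [cross_eq]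
    refine (cross_norm_le _ _).trans ?_
    have := norm_nonneg (q' - p')
    nlinarith
  have hXX : ‖X - X'‖ ≤ 2 * W := by
    rw [hX, hX', ← crossM_sub]
    refine (crossM_norm_le _).trans ?_
    have e1 : crossProduct p q - crossProduct p' q'
        = crossProduct (p - p') (q - p) + crossProduct p' ((q - p) - (q' - p')) := by
      rw [cross_eq p q, cross_eq p' q']
      simp only [map_sub, LinearMap.sub_apply, cross_self]
      abel
    rw [e1]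
    refine (norm_add_le _ _).trans ?_
    have e2 := cross_norm_le (p - p') (q - p)
    have e3 := cross_norm_le p' ((q - p) - (q' - p'))
    have e4 := norm_nonneg ((q - p) - (q' - p'))
    rw [hW]
    nlinarith
  have hss : |s - s'| ≤ 3 * W := by
    have h2 : p ⬝ᵥ p = 1 := hp
    have h2' : p' ⬝ᵥ p' = 1 := hp'
    have e1 : s - s' = s * s' * ((p' ⬝ᵥ q') - (p ⬝ᵥ q)) := by
      rw [hs, hs']
      have : (1 + p ⬝ᵥ q) ≠ 0 := by linarith
      have : (1 + p' ⬝ᵥ q') ≠ 0 := by linarith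
      field_simp
      ring
    have e2 : (p' ⬝ᵥ q') - (p ⬝ᵥ q)
        = -((p - p') ⬝ᵥ (q - p) + p' ⬝ᵥ ((q - p) - (q' - p'))) := by
      simp only [dotProduct_sub, sub_dotProduct, h2, h2']
      ring
    rw [e1, e2, abs_mul, abs_of_pos (mul_pos hs0 hs0'), abs_neg]
    have e3 : s * s' ≤ 1 := mul_le_one₀ hs1 hs0'.le hs1'
    have e4 : |(p - p') ⬝ᵥ (q - p) + p' ⬝ᵥ ((q - p) - (q' - p'))| ≤ 3 * W := by
      refine (abs_add_le _ _).trans ?_
      have e5 := dot_norm_le (p - p') (q - p)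
      have e6 := dot_norm_le p' ((q - p) - (q' - p'))
      have e7 := norm_nonneg ((q - p) - (q' - p'))
      rw [hW]
      nlinarith
    calc s * s' * _ ≤ 1 * (3 * W) := mul_le_mul e3 e4 (abs_nonneg _) zero_le_one
      _ = 3 * W := one_mul _
  have e1 : Bm p q - Bm p' q'
      = (X - X') + (s - s') • (X * X) + s' • (X * (X - X') + (X - X') * X') := by
    have b1 : Bm p q = 1 + X + s • (X * X) := rfl
    have b2 : Bm p' q' = 1 + X' + s' • (X' * X') := rfl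
    rw [b1, b2, mul_sub, sub_mul]
    module
  rw [e1]
  refine (norm_add_le _ _).trans ?_
  refine (add_le_add_left (norm_add_le _ _) _).trans ?_
  rw [norm_smul, norm_smul, Real.norm_eq_abs, Real.norm_eq_abs, abs_of_pos hs0']
  have n1 := mul_norm_le X X
  have n2 := mul_norm_le X (X - X')
  have n3 := mul_norm_le (X - X') X'
  have hX0 := norm_nonneg X
  have hX0' := norm_nonneg X'
  have hd0 := norm_nonneg (X - X')
  have hW0 : 0 ≤ W := by positivity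
  have m1 : ‖X * X‖ ≤ 1 := by nlinarith
  have m2 : ‖X * (X - X')‖ ≤ ‖X - X'‖ := by nlinarith
  have m3 : ‖(X - X') * X'‖ ≤ ‖X - X'‖ := by nlinarith
  have t1 : |s - s'| * ‖X * X‖ ≤ 3 * W * 1 :=
    mul_le_mul hss m1 (norm_nonneg _) (by positivity)
  have t2 : s' * ‖X * (X - X') + (X - X') * X'‖ ≤ 1 * (2 * W + 2 * W) := by
    apply mul_le_mul hs1' _ (norm_nonneg _) zero_le_one
    refine (norm_add_le _ _).trans ?_
    linarith
  linarith

/-- Lipschitz dependence of the translation on the rotation. -/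
theorem Ti_lip (N k : ℕ) : ∃ C : ℝ, 0 < C ∧ ∀ a : Idx N → ℝ, ‖a‖ ≤ 1 → ∀ R ∈ SO3, ∀ R' ∈ SO3,
    ‖Ti a R k - Ti a R' k‖ ≤ C * ‖a‖ * ‖R - R'‖ := by
  induction k with
  | zero =>
    refine ⟨1, one_pos, fun a _ R _ R' _ => ?_⟩
    have : Ti a R 0 - Ti a R' 0 = 0 := by simp [Ti]
    rw [this, norm_zero]
    positivity
  | succ k ih =>
    obtain ⟨C, hC, h⟩ := ih
    obtain ⟨C₁, hC₁, h₁⟩ := Ti_bound N k
    set L : ℝ := Fintype.card (Idx N) * (3 * (N : ℝ) * (1 + C₁) ^ (3 * N)) with hL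
    set B : ℝ := Fintype.card (Idx N) * (1 + C₁) ^ N with hB
    have hL0 : 0 ≤ L := by positivity
    have hB0 : 0 ≤ B := by positivity
    refine ⟨3 / 8 * (4 * (L * (3 + C) + B * 3)) + 1, by positivity, ?_⟩
    intro a ha R hR R' hR'
    have ha0 := norm_nonneg a
    have hr0 := norm_nonneg (R - R')
    have hx : ∀ S ∈ SO3, ∀ j, ‖S *ᵥ e j + Ti a S k‖ ≤ 1 + C₁ := by
      intro S hS j
      refine (norm_add_le _ _).trans (add_le_add (norm_mulVec_e hS j) ((h₁ a ha S hS).trans ?_))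
      nlinarith
    have he : ∀ j, ‖(R - R') *ᵥ e j‖ ≤ 3 * ‖R - R'‖ := by
      intro j
      refine (mulVec_norm_le _ _).trans ?_
      have := sph_norm_le (e_sph j)
      nlinarith
    have hdx : ∀ j, ‖(R *ᵥ e j + Ti a R k) - (R' *ᵥ e j + Ti a R' k)‖
        ≤ (3 + C) * ‖R - R'‖ := by
      intro j
      have e1 : (R *ᵥ e j + Ti a R k) - (R' *ᵥ e j + Ti a R' k)
          = (R - R') *ᵥ e j + (Ti a R k - Ti a R' k) := by
        rw [Matrix.sub_mulVec]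
        abel
      rw [e1]
      refine (norm_add_le _ _).trans ?_
      have h2 := h a ha R hR R' hR'
      have h3 : C * ‖a‖ * ‖R - R'‖ ≤ C * 1 * ‖R - R'‖ := by gcongr
      linarith [he j]
    rw [Ti_succ, Ti_succ, ← smul_sub, norm_smul, ← Finset.sum_sub_distrib]
    have hj : ∀ j, ‖ev a (R *ᵥ e j + Ti a R k) • (R *ᵥ e j)
        - ev a (R' *ᵥ e j + Ti a R' k) • (R' *ᵥ e j)‖
        ≤ (L * (3 + C) + B * 3) * ‖a‖ * ‖R - R'‖ := by
      intro j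
      have e1 : ev a (R *ᵥ e j + Ti a R k) • (R *ᵥ e j)
        - ev a (R' *ᵥ e j + Ti a R' k) • (R' *ᵥ e j)
        = (ev a (R *ᵥ e j + Ti a R k) - ev a (R' *ᵥ e j + Ti a R' k)) • (R *ᵥ e j)
          + ev a (R' *ᵥ e j + Ti a R' k) • ((R - R') *ᵥ e j) := by
        rw [Matrix.sub_mulVec]
        module
      rw [e1]
      refine (norm_add_le _ _).trans ?_
      rw [norm_smul, norm_smul, Real.norm_eq_abs, Real.norm_eq_abs]
      have b1 := ev_lip a (by linarith : 1 ≤ 1 + C₁) (hx R hR j) (hx R' hR' j)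
      have b2 := ev_bound a (by linarith : 1 ≤ 1 + C₁) (hx R' hR' j)
      have b3 := norm_mulVec_e hR j
      have b4 := hdx j
      have c1 : |ev a (R *ᵥ e j + Ti a R k) - ev a (R' *ᵥ e j + Ti a R' k)|
          ≤ L * ‖a‖ * ((3 + C) * ‖R - R'‖) := b1.trans (by rw [hL]; gcongr)
      have c2 : |ev a (R *ᵥ e j + Ti a R k) - ev a (R' *ᵥ e j + Ti a R' k)| * ‖R *ᵥ e j‖
          ≤ L * ‖a‖ * ((3 + C) * ‖R - R'‖) * 1 :=
        mul_le_mul c1 b3 (norm_nonneg _) (by positivity)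
      have c3 : |ev a (R' *ᵥ e j + Ti a R' k)| * ‖(R - R') *ᵥ e j‖
          ≤ B * ‖a‖ * (3 * ‖R - R'‖) :=
        mul_le_mul b2 (he j) (norm_nonneg _) (by positivity)
      calc _ ≤ L * ‖a‖ * ((3 + C) * ‖R - R'‖) * 1 + B * ‖a‖ * (3 * ‖R - R'‖) :=
            add_le_add c2 c3
        _ = _ := by ring
    have hs : ‖∑ j, (ev a (R *ᵥ e j + Ti a R k) • (R *ᵥ e j)
        - ev a (R' *ᵥ e j + Ti a R' k) • (R' *ᵥ e j))‖
        ≤ 4 * ((L * (3 + C) + B * 3) * ‖a‖ * ‖R - R'‖) := by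
      refine (norm_sum_le _ _).trans ?_
      calc _ ≤ ∑ _j : Fin 4, (L * (3 + C) + B * 3) * ‖a‖ * ‖R - R'‖ :=
            Finset.sum_le_sum fun j _ => hj j
        _ = _ := by simp
    rw [Real.norm_eq_abs, abs_of_pos (by norm_num : (0 : ℝ) < 3 / 8)]
    have hp : 0 ≤ ‖a‖ * ‖R - R'‖ := by positivity
    calc 3 / 8 * _ ≤ 3 / 8 * (4 * ((L * (3 + C) + B * 3) * ‖a‖ * ‖R - R'‖)) := by gcongr
      _ ≤ _ := by nlinarith

/-- Lipschitz dependence of the displacement on the rotation. -/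
theorem d_lip (N M : ℕ) : ∃ C : ℝ, 0 < C ∧ ∃ δ : ℝ, 0 < δ ∧ ∀ a : Idx N → ℝ, ‖a‖ ≤ δ →
    ∀ R ∈ SO3, ∀ R' ∈ SO3,
      ‖(yh M a R 0 - R *ᵥ e 0) - (yh M a R' 0 - R' *ᵥ e 0)‖ ≤ C * ‖a‖ * ‖R - R'‖ := by
  obtain ⟨C₁, hC₁, h₁⟩ := Ti_bound N M
  obtain ⟨C₂, hC₂, h₂⟩ := Ti_lip N M
  obtain ⟨C₃, hC₃, δ, hδ, h₃⟩ := yv_near N M
  refine ⟨(2 * (2 * (9 * C₁ + 3 * C₂) + 6 * C₂ * C₁)) * (1 + C₁) + 4 * C₁ * (3 + C₂) + C₂,
    by positivity, min 1 δ, by positivity, ?_⟩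
  intro a ha R hR R' hR'
  have ha1 : ‖a‖ ≤ 1 := ha.trans (min_le_left _ _)
  have ha2 : ‖a‖ ≤ δ := ha.trans (min_le_right _ _)
  have ha0 := norm_nonneg a
  have hr0 := norm_nonneg (R - R')
  set T := Ti a R M with hT
  set T' := Ti a R' M with hT'
  have hTn : ‖T‖ ≤ C₁ * ‖a‖ := h₁ a ha1 R hR
  have hTn' : ‖T'‖ ≤ C₁ * ‖a‖ := h₁ a ha1 R' hR'
  have hTT : ‖T - T'‖ ≤ C₂ * ‖a‖ * ‖R - R'‖ := h₂ a ha1 R hR R' hR'
  set u := R *ᵥ e 0 with hu
  set u' := R' *ᵥ e 0 with hu'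
  have hus : u ∈ sph := mulVec_sph hR (e_sph 0)
  have hus' : u' ∈ sph := mulVec_sph hR' (e_sph 0)
  have huu : ‖u - u'‖ ≤ 3 * ‖R - R'‖ := by
    rw [hu, hu', ← Matrix.sub_mulVec]
    refine (mulVec_norm_le _ _).trans ?_
    have := sph_norm_le (e_sph 0)
    nlinarith
  have hun := sph_norm_le hus
  have hun' := sph_norm_le hus'
  have hx : yv M a R 0 = u + T := rfl
  have hx' : yv M a R' 0 = u' + T' := rfl
  obtain ⟨-, hn, -, -⟩ := h₃ a ha2 R hR 0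
  obtain ⟨-, hn', -, -⟩ := h₃ a ha2 R' hR' 0
  rw [hx] at hn
  rw [hx'] at hn'
  have hyh : yh M a R 0 = (nrm (u + T))⁻¹ • (u + T) := rfl
  have hyh' : yh M a R' 0 = (nrm (u' + T'))⁻¹ • (u' + T') := rfl
  set ν := nrm (u + T) with hν
  set ν' := nrm (u' + T') with hν'
  have hν0 : 0 < ν := by linarith
  have hν0' : 0 < ν' := by linarith
  have e1 : (yh M a R 0 - u) - (yh M a R' 0 - u')
      = (ν⁻¹ - ν'⁻¹) • (u + T) + (ν'⁻¹ - 1) • ((u + T) - (u' + T')) + (T - T') := by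
    rw [hyh, hyh']
    module
  rw [e1]
  refine (norm_add_le _ _).trans ?_
  refine (add_le_add_left (norm_add_le _ _) _).trans ?_
  rw [norm_smul, norm_smul, Real.norm_eq_abs, Real.norm_eq_abs]
  -- first factor
  have hsq : |ν ^ 2 - ν' ^ 2| ≤ (2 * (9 * C₁ + 3 * C₂) + 6 * C₂ * C₁) * (‖a‖ * ‖R - R'‖) := by
    have k1 : u ⬝ᵥ u = 1 := hus
    have k2 : u' ⬝ᵥ u' = 1 := hus'
    have k3 : ν ^ 2 - ν' ^ 2 = 2 * ((u - u') ⬝ᵥ T + u' ⬝ᵥ (T - T')) + (T - T') ⬝ᵥ (T + T') := by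
      rw [hν, hν', nrm_sq, nrm_sq]
      simp only [dotProduct_sub, sub_dotProduct, dotProduct_add, add_dotProduct, k1, k2]
      rw [dotProduct_comm T u, dotProduct_comm T' u', dotProduct_comm T' T]
      ring
    rw [k3]
    refine (abs_add_le _ _).trans ?_
    rw [abs_mul, abs_two]
    have m1 : |(u - u') ⬝ᵥ T + u' ⬝ᵥ (T - T')| ≤ (9 * C₁ + 3 * C₂) * (‖a‖ * ‖R - R'‖) := by
      refine (abs_add_le _ _).trans ?_
      have a1 := dot_norm_le (u - u') T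
      have a2 := dot_norm_le u' (T - T')
      have a3 : 3 * ‖u - u'‖ * ‖T‖ ≤ 3 * (3 * ‖R - R'‖) * (C₁ * ‖a‖) := by gcongr
      have a4 : 3 * ‖u'‖ * ‖T - T'‖ ≤ 3 * 1 * (C₂ * ‖a‖ * ‖R - R'‖) := by gcongr
      calc _ ≤ 3 * (3 * ‖R - R'‖) * (C₁ * ‖a‖) + 3 * 1 * (C₂ * ‖a‖ * ‖R - R'‖) :=
            add_le_add (a1.trans a3) (a2.trans a4)
        _ = _ := by ring
    have m2 : |(T - T') ⬝ᵥ (T + T')| ≤ 6 * C₂ * C₁ * (‖a‖ * ‖R - R'‖) := by
      refine (dot_norm_le _ _).trans ?_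
      have a1 : ‖T + T'‖ ≤ 2 * C₁ := by
        refine (norm_add_le _ _).trans ?_
        nlinarith
      calc 3 * ‖T - T'‖ * ‖T + T'‖ ≤ 3 * (C₂ * ‖a‖ * ‖R - R'‖) * (2 * C₁) := by gcongr
        _ = _ := by ring
    linarith
  have f1 : |ν⁻¹ - ν'⁻¹|
      ≤ 2 * (2 * (9 * C₁ + 3 * C₂) + 6 * C₂ * C₁) * (‖a‖ * ‖R - R'‖) := by
    have k1 : ν⁻¹ - ν'⁻¹ = -(ν ^ 2 - ν' ^ 2) * (ν * ν' * (ν + ν'))⁻¹ := by
      field_simp
      ring
    rw [k1, abs_mul, abs_neg]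
    have k2 : (1 : ℝ) / 2 ≤ ν * ν' * (ν + ν') := by
      have : (9 : ℝ) / 16 ≤ ν * ν' := by nlinarith
      nlinarith
    have k3 : |(ν * ν' * (ν + ν'))⁻¹| ≤ 2 := by
      rw [abs_of_pos (by positivity), inv_le_comm₀ (by positivity) (by norm_num)]
      linarith
    calc _ ≤ ((2 * (9 * C₁ + 3 * C₂) + 6 * C₂ * C₁) * (‖a‖ * ‖R - R'‖)) * 2 :=
          mul_le_mul hsq k3 (abs_nonneg _) (by positivity)
      _ = _ := by ring
  have f2 : ‖u + T‖ ≤ 1 + C₁ := by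
    refine (norm_add_le _ _).trans ?_
    nlinarith
  have f3 : |ν'⁻¹ - 1| ≤ 4 * C₁ * ‖a‖ := by
    have k1 : |ν' - 1| ≤ 2 * (C₁ * ‖a‖) := by
      have := abs_nrm_sub (u' + T') u'
      rw [add_sub_cancel_left, nrm_sph hus'] at this
      exact this.trans ((nrm_le_norm _).trans (by linarith))
    have k2 : ν'⁻¹ - 1 = -(ν' - 1) * ν'⁻¹ := by
      field_simp
      ring
    rw [k2, abs_mul, abs_neg]
    have k3 : |ν'⁻¹| ≤ 2 := by
      rw [abs_of_pos (by positivity), inv_le_comm₀ (by positivity) (by norm_num)]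
      linarith
    calc _ ≤ (2 * (C₁ * ‖a‖)) * 2 := mul_le_mul k1 k3 (abs_nonneg _) (by positivity)
      _ = _ := by ring
  have f4 : ‖(u + T) - (u' + T')‖ ≤ (3 + C₂) * ‖R - R'‖ := by
    have e2 : (u + T) - (u' + T') = (u - u') + (T - T') := by abel
    rw [e2]
    refine (norm_add_le _ _).trans ?_
    have : C₂ * ‖a‖ * ‖R - R'‖ ≤ C₂ * 1 * ‖R - R'‖ := by gcongr
    linarith
  have g1 := mul_le_mul f1 f2 (norm_nonneg _) (by positivity)
  have g2 := mul_le_mul f3 f4 (norm_nonneg _) (by positivity)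
  calc _ ≤ 2 * (2 * (9 * C₁ + 3 * C₂) + 6 * C₂ * C₁) * (‖a‖ * ‖R - R'‖) * (1 + C₁)
        + 4 * C₁ * ‖a‖ * ((3 + C₂) * ‖R - R'‖) + C₂ * ‖a‖ * ‖R - R'‖ :=
        add_le_add (add_le_add g1 g2) hTT
    _ = _ := by ring

/-- **T5.** -/
theorem gT5 : G_T5 := by
  intro N M
  obtain ⟨C₁, hC₁, δ₁, hδ₁, h₁⟩ := yv_near N M
  obtain ⟨C₂, hC₂, δ₂, hδ₂, h₂⟩ := d_lip N M
  set K : ℝ := 81 * C₁ + 27 * C₂ with hK
  have hK0 : 0 < K := by positivity
  refine ⟨12 * C₁ + 9 * K ^ (M + 1), by positivity, min (min δ₁ δ₂) (1 / (6 * C₁)),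
    by positivity, ?_⟩
  intro a ha Q hQ
  have ha1 : ‖a‖ ≤ δ₁ := ha.trans ((min_le_left _ _).trans (min_le_left _ _))
  have ha2 : ‖a‖ ≤ δ₂ := ha.trans ((min_le_left _ _).trans (min_le_right _ _))
  have ha3 : ‖a‖ ≤ 1 / (6 * C₁) := ha.trans (min_le_right _ _)
  have ha0 := norm_nonneg a
  have hCa : C₁ * ‖a‖ ≤ 1 / 6 := by
    calc C₁ * ‖a‖ ≤ C₁ * (1 / (6 * C₁)) := mul_le_mul_of_nonneg_left ha3 hC₁.le
      _ = 1 / 6 := by field_simp
  have hQn := SO3_norm_le hQ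
  -- one step
  have step : ∀ R ∈ SO3, ‖yh M a R 0 - R *ᵥ e 0‖ ≤ C₁ * ‖a‖ ∧ yh M a R 0 ∈ sph ∧
      R *ᵥ e 0 ∈ sph ∧ ‖yh M a R 0 - R *ᵥ e 0‖ ≤ 1 / 6 ∧
      1 + (R *ᵥ e 0) ⬝ᵥ (yh M a R 0) ≠ 0 ∧ Bm (R *ᵥ e 0) (yh M a R 0) ∈ SO3 := by
    intro R hR
    obtain ⟨-, -, s1, s2⟩ := h₁ a ha1 R hR 0
    have s3 := mulVec_sph hR (e_sph 0)
    have s4 := s2.trans hCa
    have s5 := one_le_dot s3 s4
    have s6 : 1 + (R *ᵥ e 0) ⬝ᵥ (yh M a R 0) ≠ 0 := by linarith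
    exact ⟨s2, s1, s3, s4, s6, Bm_SO3 s3 s1 s6⟩
  have mem : ∀ k, Rk M a Q k ∈ SO3 := by
    intro k
    induction k with
    | zero => exact hQ
    | succ k ih =>
      obtain ⟨-, -, -, -, -, s⟩ := step _ ih
      exact SO3_mul (SO3_transpose s) hQ
  have near : ∀ k, ‖Rk M a Q k - Q‖ ≤ 12 * C₁ * ‖a‖ := by
    intro k
    cases k with
    | zero =>
      have : Rk M a Q 0 - Q = 0 := sub_self _
      rw [this, norm_zero]
      positivity
    | succ k =>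
      obtain ⟨s1, -, s3, s4, -, s⟩ := step _ (mem k)
      have e1 : Rk M a Q (k + 1) - Q
          = (Bm (Rk M a Q k *ᵥ e 0) (yh M a (Rk M a Q k) 0) - 1)ᵀ * Q := by
        rw [Rk, Matrix.transpose_sub, Matrix.transpose_one, sub_mul, one_mul]
      rw [e1]
      refine (mul_norm_le _ _).trans ?_
      rw [Matrix.norm_transpose]
      have b := Bm_near s3 s4
      have n0 := norm_nonneg (Bm (Rk M a Q k *ᵥ e 0) (yh M a (Rk M a Q k) 0) - 1)
      calc _ ≤ 3 * (4 * (C₁ * ‖a‖)) * 1 := by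
            gcongr
            exact b.trans (by gcongr)
        _ = _ := by ring
  have diff : ∀ k, ‖Rk M a Q (k + 1) - Rk M a Q k‖ ≤ (K * ‖a‖) ^ (k + 1) := by
    intro k
    induction k with
    | zero =>
      have := near 1
      have e0 : Rk M a Q 0 = Q := rfl
      rw [e0]
      refine this.trans ?_
      rw [zero_add, pow_one, hK]
      nlinarith
    | succ k ih =>
      obtain ⟨s1, -, s3, s4, -, s⟩ := step _ (mem (k + 1))
      obtain ⟨s1', -, s3', s4', -, s'⟩ := step _ (mem k)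
      have e1 : Rk M a Q (k + 1 + 1) - Rk M a Q (k + 1)
          = (Bm (Rk M a Q (k + 1) *ᵥ e 0) (yh M a (Rk M a Q (k + 1)) 0)
            - Bm (Rk M a Q k *ᵥ e 0) (yh M a (Rk M a Q k) 0))ᵀ * Q := by
        have r1 : Rk M a Q (k + 1 + 1)
          = (Bm (Rk M a Q (k + 1) *ᵥ e 0) (yh M a (Rk M a Q (k + 1)) 0))ᵀ * Q := rfl
        have r2 : Rk M a Q (k + 1)
          = (Bm (Rk M a Q k *ᵥ e 0) (yh M a (Rk M a Q k) 0))ᵀ * Q := rfl
        rw [Matrix.transpose_sub, sub_mul, ← r1, ← r2]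
      rw [e1]
      refine (mul_norm_le _ _).trans ?_
      rw [Matrix.norm_transpose]
      have b := Bm_lip s3 s3' s4 s4'
      have b2 := h₂ a ha2 _ (mem (k + 1)) _ (mem k)
      have b3 : ‖Rk M a Q (k + 1) *ᵥ e 0 - Rk M a Q k *ᵥ e 0‖
          ≤ 3 * ‖Rk M a Q (k + 1) - Rk M a Q k‖ := by
        rw [← Matrix.sub_mulVec]
        refine (mulVec_norm_le _ _).trans ?_
        have := sph_norm_le (e_sph 0)
        have := norm_nonneg (Rk M a Q (k + 1) - Rk M a Q k)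
        nlinarith
      set D := ‖Rk M a Q (k + 1) - Rk M a Q k‖ with hD
      have hD0 : 0 ≤ D := norm_nonneg _
      have b4 : ‖Rk M a Q (k + 1) *ᵥ e 0 - Rk M a Q k *ᵥ e 0‖
          * ‖yh M a (Rk M a Q (k + 1)) 0 - Rk M a Q (k + 1) *ᵥ e 0‖
          ≤ (3 * D) * (C₁ * ‖a‖) := mul_le_mul b3 s1 (norm_nonneg _) (by positivity)
      calc _ ≤ 3 * (9 * ((3 * D) * (C₁ * ‖a‖) + C₂ * ‖a‖ * D)) * 1 := by
            gcongr
            exact b.trans (by gcongr)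
        _ = K * ‖a‖ * D := by rw [hK]; ring
        _ ≤ K * ‖a‖ * (K * ‖a‖) ^ (k + 1) := by gcongr
        _ = (K * ‖a‖) ^ (k + 1 + 1) := by ring
  refine ⟨mem M, ?_, ?_⟩
  · intro i j
    have h3 : |(Rk M a Q M - Q) i j| ≤ ‖Rk M a Q M - Q‖ :=
      Matrix.norm_entry_le_entrywise_sup_norm (Rk M a Q M - Q)
    rw [Matrix.sub_apply] at h3
    refine h3.trans ((near M).trans ?_)
    have : 0 ≤ K ^ (M + 1) := by positivity
    nlinarith
  · obtain ⟨s1, s2, s3, s4, s5, s⟩ := step _ (mem M)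
    have e1 : yh M a (Rk M a Q M) 0 - Q *ᵥ e 0
        = Bm (Rk M a Q M *ᵥ e 0) (yh M a (Rk M a Q M) 0) *ᵥ
          ((Rk M a Q M - Rk M a Q (M + 1)) *ᵥ e 0) := by
      have r2 : Rk M a Q (M + 1)
          = (Bm (Rk M a Q M *ᵥ e 0) (yh M a (Rk M a Q M) 0))ᵀ * Q := rfl
      rw [Matrix.sub_mulVec, Matrix.mulVec_sub, Bm_mulVec s3 s2 s5, r2, Matrix.mulVec_mulVec,
        ← mul_assoc, ((mem_SO3 _).1 s).1, one_mul]
    rw [e1]
    refine (mulVec_norm_le _ _).trans ?_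
    have n1 := SO3_norm_le s
    have n2 := mulVec_norm_le (Rk M a Q M - Rk M a Q (M + 1)) (e 0)
    have n3 := sph_norm_le (e_sph 0)
    have n4 := diff M
    rw [norm_sub_rev] at n4
    have n5 : ‖(Rk M a Q M - Rk M a Q (M + 1)) *ᵥ e 0‖ ≤ 3 * (K * ‖a‖) ^ (M + 1) * 1 :=
      n2.trans (by gcongr)
    calc _ ≤ 3 * 1 * (3 * (K * ‖a‖) ^ (M + 1) * 1) := by gcongr
      _ = 9 * K ^ (M + 1) * ‖a‖ ^ (M + 1) := by rw [mul_pow]; ring
      _ ≤ (12 * C₁ + 9 * K ^ (M + 1)) * ‖a‖ ^ (M + 1) := by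
        apply mul_le_mul_of_nonneg_right _ (by positivity)
        linarith

end Pool.Agent.Helper40.LU
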